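import Mathlib

/-!
# [H54 CG SEL] Selection of an infinite finitely generated subgroup with finite centralizers

If all elements of `G` have finite order and the finite subgroups of `G` have at most `B` elements, then some infinite
finitely generated subgroup `K` has a finite centre, and the centralizers in `K` of the non-central elements are finite
of order at most `B`.
-/

set_option autoImplicit false

namespace Pool.Agent.H79.CG

universe u

variable {G : Type u} [Group G]

/-- a subgroup which is infinite contains an infinite finitely generated subgroup, if the orders of the finite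
subgroups are bounded -/
theorem exists_fg_infinite {B : ℕ} (hB : ∀ H : Subgroup G, (H : Set G).Finite → Nat.card H ≤ B)
    (L : Subgroup G) (hL : (L : Set G).Infinite) :
    ∃ K : Subgroup G, K.FG ∧ (K : Set G).Infinite ∧ K ≤ L := by
  obtain ⟨t, htL, ht⟩ := hL.exists_subset_card_eq (B + 1)
  refine ⟨Subgroup.closure (t : Set G), ⟨t, rfl⟩, ?_, (Subgroup.closure_le _).2 htL⟩
  intro hfin
  have h1 := hB _ hfin
  have h2 : t.card ≤ (Subgroup.closure (t : Set G) : Set G).ncard := by
    rw [← Set.ncard_coe_finset t]
    exact Set.ncard_le_ncard Subgroup.subset_closure hfin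
  have h3 : (Subgroup.closure (t : Set G) : Set G).ncard = Nat.card (Subgroup.closure (t : Set G)) := rfl
  omega

/-- the centre of a subgroup, as a subgroup of the whole group -/
def ctr (K : Subgroup G) : Subgroup G := K ⊓ Subgroup.centralizer (K : Set G)

theorem mem_ctr {K : Subgroup G} {g : G} : g ∈ ctr K ↔ g ∈ K ∧ ∀ k ∈ K, k * g = g * k := by
  unfold ctr
  rw [Subgroup.mem_inf, Subgroup.mem_centralizer_iff]
  rfl

theorem ctr_eq_map (K : Subgroup G) : ctr K = (Subgroup.center K).map K.subtype := by
  ext g
  rw [mem_ctr, Subgroup.mem_map]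
  constructor
  · rintro ⟨h1, h2⟩
    refine ⟨⟨g, h1⟩, ?_, rfl⟩
    rw [Subgroup.mem_center_iff]
    intro k
    exact Subtype.ext (h2 k k.2)
  · rintro ⟨x, hx, rfl⟩
    refine ⟨x.2, fun k hk => ?_⟩
    rw [Subgroup.mem_center_iff] at hx
    exact congrArg Subtype.val (hx ⟨k, hk⟩)

theorem card_ctr (K : Subgroup G) : Nat.card (ctr K) = Nat.card (Subgroup.center K) := by
  rw [ctr_eq_map]
  exact Subgroup.card_map_of_injective K.subtype_injective

/-- a torsion group in which the finite subgroups have bounded order has no infinite abelian subgroup -/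
theorem finite_of_comm {B : ℕ} (hB : ∀ H : Subgroup G, (H : Set G).Finite → Nat.card H ≤ B)
    (htor : ∀ g : G, IsOfFinOrder g) (A : Subgroup G) (hA : ∀ a ∈ A, ∀ b ∈ A, a * b = b * a) :
    (A : Set G).Finite := by
  by_contra hinf
  obtain ⟨K, hK, hKi, hKA⟩ := exists_fg_infinite hB A hinf
  have : Group.FG K := (Group.fg_iff_subgroup_fg K).2 hK
  letI : CommGroup K := { (inferInstance : Group K) with
    mul_comm := fun a b => Subtype.ext (hA a (hKA a.2) b (hKA b.2)) }
  have htK : IsMulTorsion K := fun k => K.subtype_injective.isOfFinOrder_iff.1 (htor (k : G))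
  have : Finite K := CommGroup.finite_of_fg_isMulTorsion K htK
  exact hKi (Set.toFinite _)

/-- the selection -/
theorem exists_sel [Infinite G] (hfg : Group.FG G) (htor : ∀ g : G, IsOfFinOrder g) (B : ℕ)
    (hB : ∀ H : Subgroup G, (H : Set G).Finite → Nat.card H ≤ B) :
    ∃ K : Subgroup G, K.FG ∧ (K : Set G).Infinite ∧ (Subgroup.center K : Set K).Finite ∧
      Nat.card (Subgroup.center K) ≤ B ∧
      ∀ v : K, v ∉ Subgroup.center K → (Subgroup.centralizer ({v} : Set K) : Set K).Finite ∧
        Nat.card (Subgroup.centralizer ({v} : Set K)) ≤ B := by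
  classical
  have hctr : ∀ K : Subgroup G, (ctr K : Set G).Finite := fun K =>
    finite_of_comm hB htor (ctr K) (fun a ha b hb => (mem_ctr.1 hb).2 a (mem_ctr.1 ha).1)
  -- the orders of the centres
  let N : Set ℕ := {n | ∃ K : Subgroup G, K.FG ∧ (K : Set G).Infinite ∧ Nat.card (ctr K) = n}
  have hN1 : N.Nonempty := by
    refine ⟨_, ⊤, ?_, ?_, rfl⟩
    · exact (Group.fg_def).1 hfg
    · rw [Subgroup.coe_top]
      exact Set.infinite_univ
  have hN2 : BddAbove N := by
    refine ⟨B, ?_⟩
    rintro n ⟨K, -, -, rfl⟩
    exact hB _ (hctr K)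
  obtain ⟨K, hK, hKi, hKn⟩ := Nat.sSup_mem hN1 hN2
  have hmax : ∀ K' : Subgroup G, K'.FG → (K' : Set G).Infinite → Nat.card (ctr K') ≤ Nat.card (ctr K) := by
    intro K' h1 h2
    rw [hKn]
    exact le_csSup hN2 ⟨K', h1, h2, rfl⟩
  have hfc : (Subgroup.center K : Set K).Finite := by
    have h1 := hctr K
    rw [ctr_eq_map, Subgroup.coe_map] at h1
    exact h1.of_finite_image (K.subtype_injective.injOn)
  refine ⟨K, hK, hKi, hfc, ?_, ?_⟩
  · rw [← card_ctr]
    exact hB _ (hctr K)
  · intro v hv
    have hmapfin : ∀ L : Subgroup K, ((L.map K.subtype : Subgroup G) : Set G).Finite → (L : Set K).Finite := by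
      intro L h1
      rw [Subgroup.coe_map] at h1
      exact h1.of_finite_image (K.subtype_injective.injOn)
    have hfin : (Subgroup.centralizer ({v} : Set K) : Set K).Finite := by
      apply hmapfin
      by_contra hinf
      obtain ⟨K0, hK0, hK0i, hK0L⟩ := exists_fg_infinite hB _ hinf
      -- K₁ = ⟨K₀, v, Z(K)⟩
      have : Finite (ctr K) := hctr K
      have hZfg : (ctr K).FG := by
        rw [← Group.fg_iff_subgroup_fg]
        infer_instance
      have hvfg : (Subgroup.zpowers (v : G)).FG := by
        rw [Subgroup.zpowers_eq_closure]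
        exact ⟨{(v : G)}, by simp⟩
      let K1 : Subgroup G := K0 ⊔ (Subgroup.zpowers (v : G) ⊔ ctr K)
      have hK1 : K1.FG := hK0.sup (hvfg.sup hZfg)
      have hK1i : (K1 : Set G).Infinite := hK0i.mono (by
        intro x hx
        exact (le_sup_left : K0 ≤ K1) hx)
      -- everything in `K₁` lies in `K` and commutes with `v`
      have hK1K : K1 ≤ K := by
        refine sup_le ?_ (sup_le ?_ ?_)
        · refine hK0L.trans ?_
          rintro x ⟨y, -, rfl⟩
          exact y.2
        · rw [Subgroup.zpowers_le]
          exact v.2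
        · exact fun x hx => (mem_ctr.1 hx).1
      have hcv : K1 ≤ Subgroup.centralizer ({(v : G)} : Set G) := by
        refine sup_le ?_ (sup_le ?_ ?_)
        · refine hK0L.trans ?_
          rintro x ⟨y, hy, rfl⟩
          rw [Subgroup.mem_centralizer_iff]
          intro g hg
          rw [Set.mem_singleton_iff] at hg
          subst hg
          have hy' : y ∈ Subgroup.centralizer ({v} : Set K) := hy
          rw [Subgroup.mem_centralizer_iff] at hy'
          exact congrArg Subtype.val (hy' v (Set.mem_singleton v))
        · rw [Subgroup.zpowers_le, Subgroup.mem_centralizer_iff]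
          intro g hg
          rw [Set.mem_singleton_iff] at hg
          subst hg
          rfl
        · intro x hx
          rw [Subgroup.mem_centralizer_iff]
          intro g hg
          rw [Set.mem_singleton_iff] at hg
          subst hg
          exact (mem_ctr.1 hx).2 _ v.2
      have hle : ctr K ≤ ctr K1 := by
        intro x hx
        rw [mem_ctr]
        refine ⟨(le_sup_right.trans le_sup_right : ctr K ≤ K1) hx, fun k hk => (mem_ctr.1 hx).2 k (hK1K hk)⟩
      have hvin : (v : G) ∈ ctr K1 := by
        rw [mem_ctr]
        refine ⟨(le_sup_left.trans le_sup_right : Subgroup.zpowers (v : G) ≤ K1) (Subgroup.mem_zpowers _), fun k hk => ?_⟩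
        have h1 := hcv hk
        rw [Subgroup.mem_centralizer_iff] at h1
        exact (h1 (v : G) (Set.mem_singleton _)).symm
      have hvnot : (v : G) ∉ ctr K := by
        intro h1
        apply hv
        rw [ctr_eq_map, Subgroup.mem_map] at h1
        obtain ⟨x, hx, hxv⟩ := h1
        have : x = v := Subtype.ext hxv
        exact this ▸ hx
      have hlt : Nat.card (ctr K) < Nat.card (ctr K1) := by
        have h1 : (ctr K : Set G) ⊂ (ctr K1 : Set G) := by
          refine ⟨hle, fun h2 => hvnot (h2 hvin)⟩
        exact Set.ncard_lt_ncard h1 (hctr K1)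
      exact absurd (hmax K1 hK1 hK1i) (not_le.2 hlt)
    refine ⟨hfin, ?_⟩
    have h1 : Nat.card ((Subgroup.centralizer ({v} : Set K)).map K.subtype) =
        Nat.card (Subgroup.centralizer ({v} : Set K)) :=
      Subgroup.card_map_of_injective K.subtype_injective
    rw [← h1]
    apply hB
    rw [Subgroup.coe_map]
    exact hfin.image _

theorem orderOf_le_of_bound {B : ℕ} (hB : ∀ H : Subgroup G, (H : Set G).Finite → Nat.card H ≤ B)
    (htor : ∀ g : G, IsOfFinOrder g) (g : G) : orderOf g ≤ B := by
  have h1 : (Subgroup.zpowers g : Set G).Finite := finite_zpowers.2 (htor g)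
  have h2 := hB _ h1
  rwa [Nat.card_zpowers] at h2

end Pool.Agent.H79.CG
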